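import Pool.Agent.H231Z.Abc.SVTwo

set_option autoImplicit false

namespace Pool.Agent.Results.MP_7aad9f_nt.ALowerBound

/-- For every `C < 4 √e = 6.5948...` there are coprime positive integers `a + b = c` with `c`
arbitrarily large and `c > rad(abc) exp(C √(log c) / log log c)`. -/
theorem result : ∀ C : ℝ, C < 4 * √(Real.exp 1) → ∀ N : ℕ,
    ∃ a b c : ℕ, 0 < a ∧ 0 < b ∧ Nat.Coprime a b ∧ a + b = c ∧ N < c ∧
      ((∏ p ∈ (a * b * c).primeFactors, p : ℕ) : ℝ) *
        Real.exp (C * √(Real.log c) / Real.log (Real.log c)) < c := by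
  intro C hC N
  refine Pool.Agent.H231Z.Abc.final Pool.Agent.H231Z.Abc.sv_two C ?_ N
  rwa [show ((2 : ℝ) - 1) / 2 = 1 / 2 by norm_num, Real.exp_half]

end Pool.Agent.Results.MP_7aad9f_nt.ALowerBound
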